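import Pool.Agent.helper38.AT.Spec

set_option autoImplicit false

namespace Pool.Agent.AT

open Finset Real Pool.Agent.helper39.MT Pool.Agent.helper85.FC Pool.Agent.MK

lemma BXP_class (K W : ℕ) (hW : 0 < W) (S : Finset (ℕ × ℤ)) (hS : K * W ^ 2 ≤ #S) :
    ∃ S' ⊆ S, #S' = K ∧ ∀ f ∈ S', ∀ g ∈ S', (W : ℤ) ∣ (f.1 : ℤ) - g.1 ∧ (W : ℤ) ∣ f.2 - g.2 := by
  classical
  have hW0 : (0 : ℤ) < W := by exact_mod_cast hW
  have hmaps : ∀ f ∈ S, (f.1 % W, f.2 % (W : ℤ)) ∈ (range W) ×ˢ (Ico (0 : ℤ) W) := by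
    intro f _
    rw [mem_product, mem_range, mem_Ico]
    exact ⟨Nat.mod_lt _ hW, Int.emod_nonneg _ hW0.ne', Int.emod_lt_of_pos _ hW0⟩
  have hne : ((range W) ×ˢ (Ico (0 : ℤ) W)).Nonempty := by
    refine ⟨(0, 0), ?_⟩
    rw [mem_product, mem_range, mem_Ico]
    exact ⟨hW, le_refl _, hW0⟩
  have hcard : #((range W) ×ˢ (Ico (0 : ℤ) W)) * K ≤ #S := by
    rw [card_product, card_range, Int.card_Ico, sub_zero, Int.toNat_natCast]
    refine le_trans (le_of_eq ?_) hS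
    ring
  obtain ⟨α, -, hα⟩ := exists_le_card_fiber_of_mul_le_card_of_maps_to hmaps hne hcard
  obtain ⟨S', hS', hc⟩ := exists_subset_card_eq hα
  refine ⟨S', hS'.trans (filter_subset _ _), hc, ?_⟩
  intro f hf g hg
  have h1 := (mem_filter.mp (hS' hf)).2
  have h2 := (mem_filter.mp (hS' hg)).2
  have h3 : (f.1 % W, f.2 % (W : ℤ)) = (g.1 % W, g.2 % (W : ℤ)) := h1.trans h2.symm
  rw [Prod.mk.injEq] at h3
  constructor
  · have h4 : (f.1 : ℤ) % W = (g.1 : ℤ) % W := by exact_mod_cast h3.1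
    exact Int.ModEq.dvd h4.symm
  · exact Int.ModEq.dvd h3.2.symm

theorem BXP : BXP_stmt := by
  classical
  intro k hk hB
  obtain ⟨K, hK, hB⟩ := hB
  obtain ⟨W, hW⟩ : ∃ W, W = (k * K).factorial := ⟨_, rfl⟩
  have hW0 : 0 < W := by
    rw [hW]
    exact Nat.factorial_pos _
  refine ⟨K * W ^ 2, ?_⟩
  intro H hH hpos hAd
  have hex := fun i => BXP_class K W hW0 (H i) (hH i)
  choose H' h1 h2 h3 using hex
  have hsub : Fintype.piFinset H' ⊆ Fintype.piFinset H := Fintype.piFinset_subset _ _ h1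
  obtain ⟨f, hf, hM⟩ := hB W H' h2 (by
    intro p hp hle
    rw [hW]
    exact Nat.dvd_factorial hp.pos hle) h3 (fun i f hf => hpos i f (h1 i hf)) (fun f hf => (hAd f (hsub hf)).1)
    (fun f hf => (hAd f (hsub hf)).2)
  exact ⟨f, hsub hf, hM⟩

end Pool.Agent.AT
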