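import Pool.Agent.helper38.AT.Spec

set_option autoImplicit false

namespace Pool.Agent.AT

open Finset Real Pool.Agent.helper39.MT Pool.Agent.helper85.FC Pool.Agent.MK

lemma QP_pair (f : Fin 4 → ℕ × ℤ) (hM : Many f) :
    ∃ i j : Fin 4, i ≠ j ∧ ∀ N : ℕ, ∃ n ≥ N, (ev (f i) n).Prime ∧ (ev (f j) n).Prime := by
  classical
  by_contra hcon
  push Not at hcon
  have hex : ∀ x : Fin 4 × Fin 4, ∃ N : ℕ, x.1 ≠ x.2 → ∀ n ≥ N, (ev (f x.1) n).Prime → ¬ (ev (f x.2) n).Prime := by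
    intro x
    by_cases hx : x.1 = x.2
    · exact ⟨0, fun h => absurd hx h⟩
    · obtain ⟨N, hN⟩ := hcon x.1 x.2 hx
      exact ⟨N, fun _ => hN⟩
  choose N hN using hex
  obtain ⟨n, hn, hh⟩ := hM (∑ x, N x)
  have h1 : 1 < hits f n := by
    have h2 : (1 : ℝ) < hits f n := by
      have : (1 : ℝ) < (1 / 4 + 1 / 500000 : ℝ) * ((4 : ℕ) : ℝ) := by norm_num
      linarith
    exact_mod_cast h2
  unfold hits at h1
  obtain ⟨i, hi, j, hj, hij⟩ := one_lt_card.mp h1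
  have h3 : N (i, j) ≤ n := le_trans (single_le_sum (f := N) (fun _ _ => Nat.zero_le _) (mem_univ (i, j))) hn
  exact hN (i, j) hij n h3 (mem_filter.mp hi).2 (mem_filter.mp hj).2

theorem QP (h1 : COI_stmt) (h2 : PRT_stmt) : QP_stmt := by
  classical
  intro hQ
  obtain ⟨C, δ, hC, hδ0, hδ1, hQ⟩ := hQ
  refine ⟨C + 16, δ, by linarith, hδ0, hδ1, ?_⟩
  intro F L hL hF hpos
  have hQ' := hQ F L hL hF hpos
  have hCO := h1 4 L F hL hF
  obtain ⟨Pr, hPr⟩ : ∃ Pr : ℝ, Pr = ∏ i, (#(F i) : ℝ) := ⟨_, rfl⟩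
  rw [← hPr] at hQ' hCO ⊢
  have hPr0 : 0 ≤ Pr := by
    rw [hPr]
    exact prod_nonneg fun i _ => by positivity
  have hL1 : (1 : ℝ) ≤ L := by exact_mod_cast hL
  have hL0 : (0 : ℝ) < L := by linarith
  have hsub : {f ∈ Fintype.piFinset F | Adm f ∧ ∀ i j, i ≠ j → ¬ Pair (f i) (f j)} ⊆
      {f ∈ Fintype.piFinset F | Adm f ∧ ¬ Many f} ∪ {f ∈ Fintype.piFinset F | ¬ Function.Injective f} := by
    intro f hf
    obtain ⟨hf1, hf2, hf3⟩ := mem_filter.mp hf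
    rw [mem_union, mem_filter, mem_filter]
    by_cases hinj : Function.Injective f
    · left
      refine ⟨hf1, hf2, ?_⟩
      intro hM
      obtain ⟨i, j, hij, hp⟩ := QP_pair f hM
      apply hf3 i j hij
      have hm : ∀ i, f i ∈ F i := Fintype.mem_piFinset.mp hf1
      apply h2 (f i) (f j) (hpos i _ (hm i)) (hpos j _ (hm j)) (fun h => hij (hinj h)) _ hp
      intro p hpp
      obtain ⟨n, hn⟩ := hf2 p hpp
      refine ⟨n, ?_⟩
      intro x
      fin_cases x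
      · exact hn i
      · exact hn j
    · right
      exact ⟨hf1, hinj⟩
  have hcard := le_trans (card_le_card hsub) (card_union_le _ _)
  have hcard' : (#{f ∈ Fintype.piFinset F | Adm f ∧ ∀ i j, i ≠ j → ¬ Pair (f i) (f j)} : ℝ) ≤
      (#{f ∈ Fintype.piFinset F | Adm f ∧ ¬ Many f} : ℝ) + (#{f ∈ Fintype.piFinset F | ¬ Function.Injective f} : ℝ) := by
    exact_mod_cast hcard
  have hinv : (L : ℝ)⁻¹ ≤ (L : ℝ) ^ (-δ) := by
    rw [← Real.rpow_neg_one]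
    exact Real.rpow_le_rpow_of_exponent_le hL1 (by linarith)
  have h5 : ((4 : ℕ) : ℝ) ^ 2 * Pr / L ≤ 16 * Pr * (L : ℝ) ^ (-δ) := by
    rw [div_eq_mul_inv]
    have h6 : ((4 : ℕ) : ℝ) ^ 2 * Pr = 16 * Pr := by norm_num
    rw [h6]
    exact mul_le_mul_of_nonneg_left hinv (by positivity)
  have h7 : (C + 16) * Pr * (L : ℝ) ^ (-δ) = C * Pr * (L : ℝ) ^ (-δ) + 16 * Pr * (L : ℝ) ^ (-δ) := by ring
  rw [h7]
  linarith

end Pool.Agent.AT
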