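import Pool.Agent.helper38.AT.Spec

set_option autoImplicit false

namespace Pool.Agent.AT

open Finset Real Pool.Agent.helper39.MT Pool.Agent.helper85.FC Pool.Agent.MK

open Classical in
/-- the number of the elements of `T` in the interval in the class `r` modulo 6 -/
noncomputable def THC_cnt (T : ℤ → Prop) (r v : ℤ) (M : ℕ) : ℕ := #{c ∈ Ioc v (v + M) | T c ∧ (6 : ℤ) ∣ c - r}

open Classical in
lemma THC_part (T : ℤ → Prop) (v : ℤ) (M : ℕ) :
    THC_cnt T 0 v M + THC_cnt T 2 v M + THC_cnt T 4 v M ≤ #{c ∈ Ioc v (v + M) | T c ∧ (2 : ℤ) ∣ c} := by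
  unfold THC_cnt
  have d1 : Disjoint {c ∈ Ioc v (v + M) | T c ∧ (6 : ℤ) ∣ c - 0} {c ∈ Ioc v (v + M) | T c ∧ (6 : ℤ) ∣ c - 2} := by
    rw [disjoint_left]
    intro c h1 h2
    have h3 := (mem_filter.mp h1).2.2
    have h4 := (mem_filter.mp h2).2.2
    omega
  have d2 : Disjoint ({c ∈ Ioc v (v + M) | T c ∧ (6 : ℤ) ∣ c - 0} ∪ {c ∈ Ioc v (v + M) | T c ∧ (6 : ℤ) ∣ c - 2})
      {c ∈ Ioc v (v + M) | T c ∧ (6 : ℤ) ∣ c - 4} := by
    rw [disjoint_left]
    intro c h1 h2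
    have h4 := (mem_filter.mp h2).2.2
    rcases mem_union.mp h1 with h1 | h1
    · have h3 := (mem_filter.mp h1).2.2
      omega
    · have h3 := (mem_filter.mp h1).2.2
      omega
  rw [← card_union_of_disjoint d1, ← card_union_of_disjoint d2]
  apply card_le_card
  intro c hc
  rw [mem_filter]
  rcases mem_union.mp hc with hc | hc
  · rcases mem_union.mp hc with hc | hc
    · obtain ⟨h1, h2, h3⟩ := mem_filter.mp hc
      exact ⟨h1, h2, by omega⟩
    · obtain ⟨h1, h2, h3⟩ := mem_filter.mp hc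
      exact ⟨h1, h2, by omega⟩
  · obtain ⟨h1, h2, h3⟩ := mem_filter.mp hc
    exact ⟨h1, h2, by omega⟩

lemma THC_neg (T : ℤ → Prop) (hT : ∀ c, T (-c) ↔ T c) (r r' v : ℤ) (M : ℕ) (hr : (6 : ℤ) ∣ r + r') :
    THC_cnt T r (-v - M - 1) M ≤ THC_cnt T r' v M := by
  classical
  unfold THC_cnt
  apply card_le_card_of_injOn (fun c => -c)
  · intro c hc
    obtain ⟨h1, h2, h3⟩ := mem_filter.mp (mem_coe.mp hc)
    rw [mem_Ioc] at h1
    rw [mem_coe, mem_filter, mem_Ioc]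
    beta_reduce
    refine ⟨⟨by omega, by omega⟩, (hT c).mpr h2, ?_⟩
    omega
  · intro c _ c' _ h
    simp only at h
    omega

open Classical in
/-- translation -/
lemma THC_tr (P : ℤ → Prop) (v h : ℤ) (M B : ℕ) (hB : |h| ≤ B) :
    #{c ∈ Ioc v (v + M) | P (c - h)} ≤ #{c ∈ Ioc v (v + M) | P c} + B := by
  have h1 : #{c ∈ Ioc v (v + M) | P (c - h)} ≤ #({c ∈ Ioc v (v + M) | P c} ∪ (Ioc (v - h) (v - h + M) \ Ioc v (v + M))) := by
    apply card_le_card_of_injOn (fun c => c - h)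
    · intro c hc
      obtain ⟨h1, h2⟩ := mem_filter.mp (mem_coe.mp hc)
      rw [mem_Ioc] at h1
      rw [mem_coe, mem_union, mem_filter, mem_sdiff, mem_Ioc, mem_Ioc]
      beta_reduce
      by_cases h3 : v < c - h ∧ c - h ≤ v + M
      · exact Or.inl ⟨h3, h2⟩
      · exact Or.inr ⟨⟨by omega, by omega⟩, h3⟩
    · intro c _ c' _ he
      simp only at he
      omega
  have h2 : #(Ioc (v - h) (v - h + M) \ Ioc v (v + M)) ≤ B := by
    rcases le_total 0 h with h0 | h0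
    · have h3 : Ioc (v - h) (v - h + M) \ Ioc v (v + M) ⊆ Ioc (v - h) v := by
        intro c hc
        rw [mem_sdiff, mem_Ioc, mem_Ioc] at hc
        rw [mem_Ioc]
        omega
      refine le_trans (card_le_card h3) ?_
      rw [Int.card_Ioc]
      rw [abs_of_nonneg h0] at hB
      omega
    · have h3 : Ioc (v - h) (v - h + M) \ Ioc v (v + M) ⊆ Ioc (v + M) (v + M - h) := by
        intro c hc
        rw [mem_sdiff, mem_Ioc, mem_Ioc] at hc
        rw [mem_Ioc]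
        omega
      refine le_trans (card_le_card h3) ?_
      rw [Int.card_Ioc]
      rw [abs_of_nonpos h0] at hB
      omega
  have h3 := card_union_le {c ∈ Ioc v (v + M) | P c} (Ioc (v - h) (v - h + M) \ Ioc v (v + M))
  omega

lemma THC_ap (v r : ℤ) (M : ℕ) : (M : ℤ) ≤ 6 * #{c ∈ Ioc v (v + M) | (6 : ℤ) ∣ c - r} + 5 := by
  have h1 : #(Ioc ((v - r) / 6) ((v + M - r) / 6)) ≤ #{c ∈ Ioc v (v + M) | (6 : ℤ) ∣ c - r} := by
    apply card_le_card_of_injOn (fun k => 6 * k + r)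
    · intro k hk
      have hk' := mem_Ioc.mp (mem_coe.mp hk)
      rw [mem_coe, mem_filter, mem_Ioc]
      beta_reduce
      omega
    · intro k _ k' _ he
      simp only at he
      omega
  rw [Int.card_Ioc] at h1
  omega

lemma THC_sig {ι κ : Type} (s : Finset ι) (t : ι → Finset κ) (a b : ℝ) (hb : 0 ≤ b) (ha : a ≤ #s)
    (ht : ∀ i ∈ s, b ≤ #(t i)) : a * b ≤ #(s.sigma t) := by
  rw [card_sigma]
  push_cast
  have h1 : ∑ _i ∈ s, b ≤ ∑ i ∈ s, (#(t i) : ℝ) := sum_le_sum ht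
  rw [sum_const, nsmul_eq_mul] at h1
  exact le_trans (mul_le_mul_of_nonneg_right ha hb) h1

open Classical in
/-- the numbers of the class `r` in the interval with two forbidden conditions removed -/
lemma THC_one (T : ℤ → Prop) (v r : ℤ) (M : ℕ) (L : List (ℤ × ℤ × ℕ))
    (hL : ∀ x ∈ L, (6 : ℤ) ∣ r - x.1 - x.2.1 ∧ |x.1| ≤ x.2.2) :
    (M : ℝ) / 6 - 1 - (L.map fun x => (THC_cnt T x.2.1 v M : ℝ) + x.2.2).sum ≤
      #{c ∈ Ioc v (v + M) | (6 : ℤ) ∣ c - r ∧ ∀ x ∈ L, ¬ T (c - x.1)} := by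
  induction L with
  | nil =>
    have h1 := THC_ap v r M
    have h2 : {c ∈ Ioc v (v + M) | (6 : ℤ) ∣ c - r ∧ ∀ x ∈ ([] : List (ℤ × ℤ × ℕ)), ¬ T (c - x.1)} =
        {c ∈ Ioc v (v + M) | (6 : ℤ) ∣ c - r} := by
      ext c
      simp
    rw [h2]
    have h3 : (M : ℝ) ≤ 6 * #{c ∈ Ioc v (v + M) | (6 : ℤ) ∣ c - r} + 5 := by exact_mod_cast h1
    simp only [List.map_nil, List.sum_nil]
    linarith
  | cons x L ih =>
    have ih' := ih (fun y hy => hL y (List.mem_cons_of_mem _ hy))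
    obtain ⟨hx1, hx2⟩ := hL x List.mem_cons_self
    have hsub : {c ∈ Ioc v (v + M) | (6 : ℤ) ∣ c - r ∧ ∀ y ∈ L, ¬ T (c - y.1)} ⊆
        {c ∈ Ioc v (v + M) | (6 : ℤ) ∣ c - r ∧ ∀ y ∈ x :: L, ¬ T (c - y.1)} ∪
        {c ∈ Ioc v (v + M) | T (c - x.1) ∧ (6 : ℤ) ∣ (c - x.1) - x.2.1} := by
      intro c hc
      obtain ⟨h1, h2, h3⟩ := mem_filter.mp hc
      rw [mem_union, mem_filter, mem_filter]
      by_cases h4 : T (c - x.1)
      · right
        refine ⟨h1, h4, ?_⟩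
        omega
      · left
        refine ⟨h1, h2, ?_⟩
        intro y hy
        rcases List.mem_cons.mp hy with hy | hy
        · rw [hy]
          exact h4
        · exact h3 y hy
    have hc := le_trans (card_le_card hsub) (card_union_le _ _)
    have ht := THC_tr (fun d => T d ∧ (6 : ℤ) ∣ d - x.2.1) v x.1 M x.2.2 hx2
    have ht' : #{c ∈ Ioc v (v + M) | T (c - x.1) ∧ (6 : ℤ) ∣ (c - x.1) - x.2.1} ≤ THC_cnt T x.2.1 v M + x.2.2 := by
      unfold THC_cnt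
      refine le_trans (le_of_eq ?_) (le_trans ht (le_of_eq ?_))
      · apply congrArg card
        ext c
        simp only [mem_filter]
      · apply congrArg (fun n => n + x.2.2)
        apply congrArg card
        ext c
        simp only [mem_filter]
    have h5 : (#{c ∈ Ioc v (v + M) | (6 : ℤ) ∣ c - r ∧ ∀ y ∈ L, ¬ T (c - y.1)} : ℝ) ≤
        #{c ∈ Ioc v (v + M) | (6 : ℤ) ∣ c - r ∧ ∀ y ∈ x :: L, ¬ T (c - y.1)} + (THC_cnt T x.2.1 v M + x.2.2) := by
      have : #{c ∈ Ioc v (v + M) | (6 : ℤ) ∣ c - r ∧ ∀ y ∈ L, ¬ T (c - y.1)} ≤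
          #{c ∈ Ioc v (v + M) | (6 : ℤ) ∣ c - r ∧ ∀ y ∈ x :: L, ¬ T (c - y.1)} + (THC_cnt T x.2.1 v M + x.2.2) := by
        omega
      exact_mod_cast this
    rw [List.map_cons, List.sum_cons]
    linarith

/-- the interval with `cnt_4 ≤ cnt_2` -/
lemma THC_choose (T : ℤ → Prop) (hT : ∀ c, T (-c) ↔ T c) (ε : ℝ) (v : ℤ) (M : ℕ)
    (h : ((THC_cnt T 0 v M + THC_cnt T 2 v M + THC_cnt T 4 v M : ℕ) : ℝ) ≤ (1 / 6 - ε) * M) :
    ∃ v' : ℤ, (THC_cnt T 0 v' M : ℝ) + 2 * THC_cnt T 4 v' M ≤ (1 / 6 - ε) * M ∧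
      ∀ c ∈ Ioc v' (v' + M), |c| ≤ (v.natAbs + M : ℕ) := by
  push_cast at h
  rcases le_total (THC_cnt T 4 v M) (THC_cnt T 2 v M) with h1 | h1
  · refine ⟨v, ?_, ?_⟩
    · have h2 : (THC_cnt T 4 v M : ℝ) ≤ THC_cnt T 2 v M := by exact_mod_cast h1
      linarith
    · intro c hc
      rw [mem_Ioc] at hc
      rw [abs_le]
      omega
  · refine ⟨-v - M - 1, ?_, ?_⟩
    · have h2 : (THC_cnt T 2 v M : ℝ) ≤ THC_cnt T 4 v M := by exact_mod_cast h1
      have h3 : (THC_cnt T 0 (-v - M - 1) M : ℝ) ≤ THC_cnt T 0 v M := by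
        exact_mod_cast THC_neg T hT 0 0 v M (by norm_num)
      have h4 : (THC_cnt T 4 (-v - M - 1) M : ℝ) ≤ THC_cnt T 2 v M := by
        exact_mod_cast THC_neg T hT 4 2 v M (by norm_num)
      linarith
    · intro c hc
      rw [mem_Ioc] at hc
      rw [abs_le]
      omega

theorem THC : THC_stmt := by
  classical
  intro T ε u M hT hε hε6 hM0 hM hcnt
  have hpart : ∀ j, ((THC_cnt T 0 (u j) (M j) + THC_cnt T 2 (u j) (M j) + THC_cnt T 4 (u j) (M j) : ℕ) : ℝ) ≤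
      (1 / 6 - ε) * M j := by
    intro j
    refine le_trans ?_ (hcnt j)
    exact_mod_cast THC_part T (u j) (M j)
  have hch := fun j => THC_choose T hT ε (u j) (M j) (hpart j)
  choose u' hu1 hu2 using hch
  obtain ⟨B, hB⟩ : ∃ B : Fin 4 → ℕ, B = fun j => (u j).natAbs + M j := ⟨_, rfl⟩
  have hBM : ∀ i j : Fin 4, i < j → 24 * ((B i : ℝ) + 1) ≤ ε * M j := by
    intro i j hij
    refine le_trans (le_of_eq ?_) (hM i j hij)
    rw [hB]
    push_cast
    rw [Nat.cast_natAbs]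
    push_cast
    ring
  have hu2' : ∀ j, ∀ c ∈ Ioc (u' j) (u' j + M j), |c| ≤ (B j : ℤ) := by
    intro j c hc
    rw [hB]
    exact_mod_cast hu2 j c hc
  refine ⟨u', ?_⟩
  -- the successive choices
  obtain ⟨A0, hA0⟩ : ∃ A0 : Finset ℤ, A0 = {c ∈ Ioc (u' 0) (u' 0 + M 0) | (6 : ℤ) ∣ c - 0} := ⟨_, rfl⟩
  obtain ⟨A1, hA1⟩ : ∃ A1 : ℤ → Finset ℤ, A1 = fun a => {c ∈ Ioc (u' 1) (u' 1 + M 1) | (6 : ℤ) ∣ c - 0 ∧
    ∀ x ∈ [((a : ℤ), (0 : ℤ), B 0)], ¬ T (c - x.1)} := ⟨_, rfl⟩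
  obtain ⟨A2, hA2⟩ : ∃ A2 : ℤ → ℤ → Finset ℤ, A2 = fun a b => {c ∈ Ioc (u' 2) (u' 2 + M 2) | (6 : ℤ) ∣ c - 4 ∧
    ∀ x ∈ [((a : ℤ), (4 : ℤ), B 0), (b, 4, B 1)], ¬ T (c - x.1)} := ⟨_, rfl⟩
  obtain ⟨A3, hA3⟩ : ∃ A3 : ℤ → ℤ → ℤ → Finset ℤ, A3 = fun a b d => {c ∈ Ioc (u' 3) (u' 3 + M 3) | (6 : ℤ) ∣ c - 4 ∧
    ∀ x ∈ [((a : ℤ), (4 : ℤ), B 0), (b, 4, B 1), (d, 0, B 2)], ¬ T (c - x.1)} := ⟨_, rfl⟩
  have hM0' : (24 : ℝ) ≤ (M 0 : ℝ) / 6 := by
    have h1 : (0 : ℝ) ≤ M 0 := by positivity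
    nlinarith
  have c0 : (M 0 : ℝ) / 12 ≤ #A0 := by
    have h1 := THC_ap (u' 0) 0 (M 0)
    rw [← hA0] at h1
    have h2 : (M 0 : ℝ) ≤ 6 * #A0 + 5 := by exact_mod_cast h1
    linarith
  have m0 : ∀ a ∈ A0, (6 : ℤ) ∣ a ∧ |a| ≤ (B 0 : ℤ) := by
    intro a ha
    rw [hA0] at ha
    obtain ⟨h1, h2⟩ := mem_filter.mp ha
    exact ⟨by omega, hu2' 0 a h1⟩
  have m1 : ∀ a, ∀ b ∈ A1 a, (6 : ℤ) ∣ b ∧ |b| ≤ (B 1 : ℤ) := by
    intro a b hb
    rw [hA1] at hb
    obtain ⟨h1, h2, -⟩ := mem_filter.mp hb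
    exact ⟨by omega, hu2' 1 b h1⟩
  have m2 : ∀ a b, ∀ d ∈ A2 a b, (6 : ℤ) ∣ d - 4 ∧ |d| ≤ (B 2 : ℤ) := by
    intro a b d hd
    rw [hA2] at hd
    obtain ⟨h1, h2, -⟩ := mem_filter.mp hd
    exact ⟨h2, hu2' 2 d h1⟩
  have c1 : ∀ a ∈ A0, ε / 2 * M 1 ≤ #(A1 a) := by
    intro a ha
    obtain ⟨ha1, ha2⟩ := m0 a ha
    have h1 := THC_one T (u' 1) 0 (M 1) [((a : ℤ), (0 : ℤ), B 0)] (by
      intro x hx
      rw [List.mem_singleton] at hx
      rw [hx]
      exact ⟨by simp only; omega, ha2⟩)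
    simp only [List.map_cons, List.map_nil, List.sum_cons, List.sum_nil] at h1
    rw [hA1]
    refine le_trans ?_ h1
    have h2 := hu1 1
    have h3 := hBM 0 1 (by decide)
    have h4 : (0 : ℝ) ≤ THC_cnt T 4 (u' 1) (M 1) := by positivity
    have h5 : (0 : ℝ) ≤ ε * M 1 := by positivity
    linarith
  have c2 : ∀ a ∈ A0, ∀ b ∈ A1 a, ε / 2 * M 2 ≤ #(A2 a b) := by
    intro a ha b hb
    obtain ⟨ha1, ha2⟩ := m0 a ha
    obtain ⟨hb1, hb2⟩ := m1 a b hb
    have h1 := THC_one T (u' 2) 4 (M 2) [((a : ℤ), (4 : ℤ), B 0), (b, 4, B 1)] (by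
      intro x hx
      simp only [List.mem_cons, List.not_mem_nil, or_false] at hx
      rcases hx with rfl | rfl
      · exact ⟨by simp only; omega, ha2⟩
      · exact ⟨by simp only; omega, hb2⟩)
    simp only [List.map_cons, List.map_nil, List.sum_cons, List.sum_nil] at h1
    rw [hA2]
    refine le_trans ?_ h1
    have h2 := hu1 2
    have h3 := hBM 0 2 (by decide)
    have h3' := hBM 1 2 (by decide)
    have h4 : (0 : ℝ) ≤ THC_cnt T 0 (u' 2) (M 2) := by positivity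
    have h5 : (0 : ℝ) ≤ ε * M 2 := by positivity
    linarith
  have c3 : ∀ a ∈ A0, ∀ b ∈ A1 a, ∀ d ∈ A2 a b, ε / 2 * M 3 ≤ #(A3 a b d) := by
    intro a ha b hb d hd
    obtain ⟨ha1, ha2⟩ := m0 a ha
    obtain ⟨hb1, hb2⟩ := m1 a b hb
    obtain ⟨hd1, hd2⟩ := m2 a b d hd
    have h1 := THC_one T (u' 3) 4 (M 3) [((a : ℤ), (4 : ℤ), B 0), (b, 4, B 1), (d, 0, B 2)] (by
      intro x hx
      simp only [List.mem_cons, List.not_mem_nil, or_false] at hx
      rcases hx with rfl | rfl | rfl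
      · exact ⟨by simp only; omega, ha2⟩
      · exact ⟨by simp only; omega, hb2⟩
      · exact ⟨by simp only; omega, hd2⟩)
    simp only [List.map_cons, List.map_nil, List.sum_cons, List.sum_nil] at h1
    rw [hA3]
    refine le_trans ?_ h1
    have h2 := hu1 3
    have h3 := hBM 0 3 (by decide)
    have h3' := hBM 1 3 (by decide)
    have h3'' := hBM 2 3 (by decide)
    have h5 : (0 : ℝ) ≤ ε * M 3 := by positivity
    linarith
  have e3 : (0 : ℝ) ≤ ε / 2 * M 3 := by positivity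
  have e23 : (0 : ℝ) ≤ (ε / 2 * M 2) * (ε / 2 * M 3) := by positivity
  have e123 : (0 : ℝ) ≤ (ε / 2 * M 1) * ((ε / 2 * M 2) * (ε / 2 * M 3)) := by positivity
  have hS := THC_sig A0 (fun a => (A1 a).sigma fun b => (A2 a b).sigma fun d => A3 a b d) ((M 0 : ℝ) / 12)
    ((ε / 2 * M 1) * ((ε / 2 * M 2) * (ε / 2 * M 3))) e123 c0 (fun a ha =>
      THC_sig (A1 a) (fun b => (A2 a b).sigma fun d => A3 a b d) (ε / 2 * M 1) ((ε / 2 * M 2) * (ε / 2 * M 3)) e23 (c1 a ha)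
        (fun b hb => THC_sig (A2 a b) (fun d => A3 a b d) (ε / 2 * M 2) (ε / 2 * M 3) e3 (c2 a ha b hb)
          (fun d hd => c3 a ha b hb d hd)))
  have hprod : ∏ j, (M j : ℝ) = M 0 * (M 1 * (M 2 * M 3)) := by
    rw [Fin.prod_univ_four]
    ring
  rw [hprod]
  refine le_trans (le_of_eq ?_) (le_trans hS ?_)
  · ring
  · have hinj : #(A0.sigma fun a => (A1 a).sigma fun b => (A2 a b).sigma fun d => A3 a b d) ≤
        #{h ∈ Fintype.piFinset (fun j => Ioc (u' j) (u' j + M j)) | ((6 : ℤ) ∣ h 0 ∧ (6 : ℤ) ∣ h 1 ∧ (6 : ℤ) ∣ h 2 - 4 ∧ (6 : ℤ) ∣ h 3 - 4) ∧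
          ∀ i j, i < j → ¬ T (h j - h i)} := by
      apply card_le_card_of_injOn (fun s => ![s.1, s.2.1, s.2.2.1, s.2.2.2])
      · rintro ⟨a, b, d, e⟩ hs
        have hs' := mem_coe.mp hs
        rw [mem_sigma, mem_sigma, mem_sigma] at hs'
        obtain ⟨ha, hb, hd, he⟩ := hs'
        simp only at ha hb hd he
        rw [mem_coe, mem_filter, Fintype.mem_piFinset]
        have ha' := ha
        have hb' := hb
        have hd' := hd
        have he' := he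
        rw [hA0] at ha'
        rw [hA1] at hb'
        rw [hA2] at hd'
        rw [hA3] at he'
        obtain ⟨a1, a2⟩ := mem_filter.mp ha'
        obtain ⟨b1, b2, b3⟩ := mem_filter.mp hb'
        obtain ⟨d1, d2, d3⟩ := mem_filter.mp hd'
        obtain ⟨e1, e2, e3⟩ := mem_filter.mp he'
        simp only [List.mem_cons, List.not_mem_nil, or_false, forall_eq_or_imp, forall_eq] at b3 d3 e3
        refine ⟨?_, ⟨(m0 a ha).1, (m1 a b hb).1, d2, e2⟩, ?_⟩
        · intro j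
          fin_cases j
          · exact a1
          · exact b1
          · exact d1
          · exact e1
        · intro i j hij
          fin_cases i <;> fin_cases j
          · exact absurd hij (by decide)
          · exact b3
          · exact d3.1
          · exact e3.1
          · exact absurd hij (by decide)
          · exact absurd hij (by decide)
          · exact d3.2
          · exact e3.2.1
          · exact absurd hij (by decide)
          · exact absurd hij (by decide)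
          · exact absurd hij (by decide)
          · exact e3.2.2
          · exact absurd hij (by decide)
          · exact absurd hij (by decide)
          · exact absurd hij (by decide)
          · exact absurd hij (by decide)
      · rintro ⟨a, b, d, e⟩ _ ⟨a', b', d', e'⟩ _ he
        have h0 := congrFun he 0
        have h1 := congrFun he 1
        have h2 := congrFun he 2
        have h3 := congrFun he 3
        simp only [Matrix.cons_val_zero, Matrix.cons_val_one, Matrix.cons_val] at h0 h1 h2 h3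
        subst h0
        subst h1
        subst h2
        subst h3
        rfl
    exact_mod_cast hinj

end Pool.Agent.AT
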