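import Pool.Agent.helper38.AT.Spec

set_option autoImplicit false

namespace Pool.Agent.AT

open Finset Real Pool.Agent.helper39.MT Pool.Agent.helper85.FC Pool.Agent.MK

lemma THA_big (h : Fin 4 → ℤ) (p : ℕ) (hp : 4 < p) : ∃ n : ℕ, ∀ i, ¬ (p : ℤ) ∣ (n : ℤ) + h i := by
  classical
  have hp0 : (0 : ℤ) < p := by omega
  have h1 : #(univ.image fun i : Fin 4 => ((-h i) % (p : ℤ)).toNat) < #(range p) := by
    rw [card_range]
    refine lt_of_le_of_lt card_image_le ?_
    rw [card_univ, Fintype.card_fin]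
    exact hp
  obtain ⟨n, hn, hn2⟩ := exists_mem_notMem_of_card_lt_card h1
  rw [mem_range] at hn
  refine ⟨n, ?_⟩
  intro i hd
  apply hn2
  rw [mem_image]
  refine ⟨i, mem_univ _, ?_⟩
  have h2 : (-h i) % (p : ℤ) = (n : ℤ) := by
    have h3 : (p : ℤ) ∣ (n : ℤ) - (-h i) := by
      have e : (n : ℤ) - (-h i) = (n : ℤ) + h i := by ring
      rw [e]
      exact hd
    have h4 := Int.emod_emod_of_dvd (n : ℤ) (dvd_refl (p : ℤ))
    have h5 : (n : ℤ) % p = (-h i) % p := (Int.emod_emod_of_dvd _ (dvd_refl _)).symm.trans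
      ((Int.emod_emod_of_dvd _ (dvd_refl _)).trans (Int.ModEq.symm ((Int.modEq_iff_dvd).mpr h3)))
    rw [← h5]
    exact Int.emod_eq_of_lt (by omega) (by omega)
  rw [h2, Int.toNat_natCast]

theorem THA : THA_stmt := by
  intro h h0 h1 h2 h3 p hp
  rcases Nat.lt_or_ge 4 p with hlt | hle
  · obtain ⟨n, hn⟩ := THA_big h p hlt
    refine ⟨n, fun i => ?_⟩
    have e : (((1 : ℕ) : ℤ)) * n + h i = (n : ℤ) + h i := by push_cast; ring
    show ¬ (p : ℤ) ∣ (((1 : ℕ) : ℤ)) * n + h i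
    rw [e]
    exact hn i
  · have hp2 : p = 2 ∨ p = 3 := by
      have h5 := hp.two_le
      have h6 : p ≠ 4 := by
        intro h7
        rw [h7] at hp
        exact absurd hp (by norm_num)
      omega
    refine ⟨1, fun i => ?_⟩
    show ¬ (p : ℤ) ∣ (((1 : ℕ) : ℤ)) * ((1 : ℕ) : ℤ) + h i
    have key : (6 : ℤ) ∣ h i ∨ (6 : ℤ) ∣ h i - 4 := by
      fin_cases i
      · exact Or.inl h0
      · exact Or.inl h1
      · exact Or.inr h2
      · exact Or.inr h3
    rcases hp2 with rfl | rfl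
    · push_cast
      rcases key with h5 | h5 <;> omega
    · push_cast
      rcases key with h5 | h5 <;> omega

end Pool.Agent.AT
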